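import Pool.Agent.Y360.RR.Stm

/-!
Project Y360-RR: kernel estimates INV, LDIFF, GDEC.
-/

set_option autoImplicit false

open Filter Topology Finset

namespace Pool.Agent.Y852.RR

open Pool.Agent.Y360.RR

theorem f_eq (s θ : ℝ) : f s θ = 4 * Real.sinh (s / 2) ^ 2 + 4 * Real.sin (Real.pi * θ) ^ 2 := by
  unfold f
  have h1 : Real.cosh s = 1 + 2 * Real.sinh (s / 2) ^ 2 := by
    have h2 := Real.cosh_two_mul (s / 2)
    have h3 := Real.cosh_sq (s / 2)
    rw [show 2 * (s / 2) = s by ring] at h2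
    rw [h2, h3]; ring
  have h4 : Real.cos (2 * Real.pi * θ) = 1 - 2 * Real.sin (Real.pi * θ) ^ 2 := by
    have h2 := Real.cos_two_mul (Real.pi * θ)
    have h3 := Real.sin_sq_add_cos_sq (Real.pi * θ)
    rw [show 2 * Real.pi * θ = 2 * (Real.pi * θ) by ring, h2]
    linarith
  rw [h1, h4]; ring

theorem cosh_ge {s : ℝ} (hs : 0 ≤ s) : 1 + s ^ 2 / 2 ≤ Real.cosh s := by
  have h2 := Real.cosh_two_mul (s / 2)
  have h3 := Real.cosh_sq (s / 2)
  rw [show 2 * (s / 2) = s by ring] at h2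
  have h5 : s / 2 ≤ Real.sinh (s / 2) := Real.self_le_sinh_iff.2 (by linarith)
  have h6 : (s / 2) ^ 2 ≤ Real.sinh (s / 2) ^ 2 := by gcongr
  rw [h2, h3]
  nlinarith

theorem cosh_le {s : ℝ} (hs : 0 ≤ s) (hs1 : s ≤ 1) : Real.cosh s ≤ 1 + s ^ 2 := by
  have h1 := Real.cosh_le_exp_half_sq s
  have h2 : |s ^ 2 / 2| ≤ 1 := by
    rw [abs_of_nonneg (by positivity)]
    nlinarith
  have h3 := Real.abs_exp_sub_one_le h2
  rw [abs_of_nonneg (by positivity : (0 : ℝ) ≤ s ^ 2 / 2)] at h3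
  have h4 := (abs_le.1 h3).2
  linarith

theorem f_ge {s : ℝ} (hs : 0 ≤ s) (θ : ℝ) : s ^ 2 ≤ f s θ := by
  have h1 := cosh_ge hs
  have h2 := Real.cos_le_one (2 * Real.pi * θ)
  unfold f
  linarith

theorem f_pos {s : ℝ} (hs : 0 < s) (θ : ℝ) : 0 < f s θ :=
  lt_of_lt_of_le (by positivity) (f_ge hs.le θ)

theorem f_diff_eq (s θ : ℝ) :
    f (2 * s) θ - f s θ = 2 * (Real.cosh s - 1) * (2 * Real.cosh s + 1) := by
  unfold f
  have h2 := Real.cosh_two_mul s
  have h3 := Real.cosh_sq s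
  rw [h2]
  nlinarith

theorem f_diff_ge {s : ℝ} (hs : 0 ≤ s) (θ : ℝ) : 3 * s ^ 2 ≤ f (2 * s) θ - f s θ := by
  rw [f_diff_eq]
  have h1 := cosh_ge hs
  nlinarith [sq_nonneg s, mul_nonneg (sq_nonneg s) (sq_nonneg s)]

theorem f_diff_le {s : ℝ} (hs : 0 ≤ s) (hs1 : s ≤ 1) (θ : ℝ) :
    f (2 * s) θ - f s θ ≤ 10 * s ^ 2 := by
  rw [f_diff_eq]
  have h1 := cosh_ge hs
  have h2 := cosh_le hs hs1
  have h3 : s ^ 2 ≤ 1 := by nlinarith
  have h4 : 0 ≤ Real.cosh s - 1 := by nlinarith [sq_nonneg s]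
  have h5 : 2 * Real.cosh s + 1 ≤ 5 := by linarith
  calc 2 * (Real.cosh s - 1) * (2 * Real.cosh s + 1) ≤ 2 * (s ^ 2) * 5 := by
        gcongr
        · linarith
    _ = 10 * s ^ 2 := by ring

/-- the sine is bounded by the kernel -/
theorem sin_le {s : ℝ} (hs : 0 < s) (θ : ℝ) :
    |Real.sin (2 * Real.pi * θ)| ≤ f (2 * s) θ / (4 * s) := by
  have h1 : |Real.sin (2 * Real.pi * θ)| ≤ 2 * |Real.sin (Real.pi * θ)| := by
    rw [show 2 * Real.pi * θ = 2 * (Real.pi * θ) by ring, Real.sin_two_mul, abs_mul, abs_mul,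
      abs_two]
    have := Real.abs_cos_le_one (Real.pi * θ)
    have h0 : 0 ≤ 2 * |Real.sin (Real.pi * θ)| := by positivity
    nlinarith
  have h2 : s ≤ Real.sinh s := Real.self_le_sinh_iff.2 hs.le
  have h3 := f_eq (2 * s) θ
  rw [show 2 * s / 2 = s by ring] at h3
  rw [le_div_iff₀ (by positivity), h3]
  have h4 : |Real.sin (Real.pi * θ)| ^ 2 = Real.sin (Real.pi * θ) ^ 2 := sq_abs _
  rw [← h4]
  have h5 : s ^ 2 ≤ Real.sinh s ^ 2 := by gcongr
  nlinarith [sq_nonneg (|Real.sin (Real.pi * θ)| - s), abs_nonneg (Real.sin (Real.pi * θ))]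

theorem t_GDEC : S_GDEC := by
  refine ⟨10 * Real.pi, by positivity, ?_⟩
  intro s θ hs hs1
  have hf := f_pos hs θ
  have hf2 := f_pos (show (0 : ℝ) < 2 * s by positivity) θ
  have h1 := f_diff_le hs.le hs1 θ
  have h2 := sin_le hs θ
  have e1 : L (2 * s) θ - L s θ =
      -(4 * Real.pi * Real.sin (2 * Real.pi * θ) * (f (2 * s) θ - f s θ) /
        (f s θ * f (2 * s) θ)) := by
    unfold L
    field_simp
    ring
  have h0 : 0 ≤ f (2 * s) θ - f s θ := le_trans (by positivity) (f_diff_ge hs.le θ)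
  rw [e1, abs_neg, abs_div, abs_mul, abs_mul, abs_mul, abs_of_nonneg h0, abs_of_pos
    (mul_pos hf hf2), abs_of_pos Real.pi_pos, abs_of_pos (show (0 : ℝ) < 4 by norm_num),
    div_le_div_iff₀ (mul_pos hf hf2) hf]
  calc 4 * Real.pi * |Real.sin (2 * Real.pi * θ)| * (f (2 * s) θ - f s θ) * f s θ
      ≤ 4 * Real.pi * (f (2 * s) θ / (4 * s)) * (10 * s ^ 2) * f s θ := by gcongr
    _ = 10 * Real.pi * s * (f s θ * f (2 * s) θ) := by
        field_simp

theorem hasDeriv_L {s : ℝ} (hs : 0 < s) (y : ℝ) :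
    HasDerivAt (fun y => L s y) (8 * Real.pi ^ 2 * Real.cos (2 * Real.pi * y) / f s y -
      16 * Real.pi ^ 2 * Real.sin (2 * Real.pi * y) ^ 2 / f s y ^ 2) y := by
  have hf := f_pos hs y
  have h1 : HasDerivAt (fun y : ℝ => 2 * Real.pi * y) (2 * Real.pi) y := by
    simpa using (hasDerivAt_id y).const_mul (2 * Real.pi)
  have h2 : HasDerivAt (fun y : ℝ => 4 * Real.pi * Real.sin (2 * Real.pi * y))
      (4 * Real.pi * (Real.cos (2 * Real.pi * y) * (2 * Real.pi))) y := (h1.sin).const_mul _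
  have h3 : HasDerivAt (fun y : ℝ => f s y)
      (-(2 * (-Real.sin (2 * Real.pi * y) * (2 * Real.pi)))) y := by
    unfold f
    exact ((h1.cos).const_mul 2).const_sub _
  have h4 := h2.div h3 hf.ne'
  unfold L
  refine h4.congr_deriv ?_
  field_simp
  ring

theorem deriv_bound {s : ℝ} (hs : 0 < s) (y : ℝ) :
    |8 * Real.pi ^ 2 * Real.cos (2 * Real.pi * y) / f s y -
      16 * Real.pi ^ 2 * Real.sin (2 * Real.pi * y) ^ 2 / f s y ^ 2| ≤
      24 * Real.pi ^ 2 / f s y := by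
  have hf := f_pos hs y
  have h1 := Real.abs_cos_le_one (2 * Real.pi * y)
  have h2 : Real.sin (2 * Real.pi * y) ^ 2 ≤ f s y := by
    rw [f_eq, show 2 * Real.pi * y = 2 * (Real.pi * y) by ring, Real.sin_two_mul]
    have h3 := Real.sin_sq_add_cos_sq (Real.pi * y)
    have h4 := sq_nonneg (Real.sinh (s / 2))
    have h5 : (2 * Real.sin (Real.pi * y) * Real.cos (Real.pi * y)) ^ 2 =
        4 * Real.sin (Real.pi * y) ^ 2 * Real.cos (Real.pi * y) ^ 2 := by ring
    have h6 : Real.cos (Real.pi * y) ^ 2 ≤ 1 := by nlinarith [sq_nonneg (Real.sin (Real.pi * y))]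
    rw [h5]
    nlinarith [sq_nonneg (Real.sin (Real.pi * y))]
  have h3 : |8 * Real.pi ^ 2 * Real.cos (2 * Real.pi * y) / f s y| ≤ 8 * Real.pi ^ 2 / f s y := by
    rw [abs_div, abs_of_pos hf, abs_mul, abs_of_pos (by positivity : (0 : ℝ) < 8 * Real.pi ^ 2)]
    exact div_le_div_of_nonneg_right (mul_le_of_le_one_right (by positivity) h1) hf.le
  have h4 : |16 * Real.pi ^ 2 * Real.sin (2 * Real.pi * y) ^ 2 / f s y ^ 2| ≤
      16 * Real.pi ^ 2 / f s y := by
    rw [abs_of_nonneg (by positivity), div_le_div_iff₀ (by positivity) hf]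
    calc 16 * Real.pi ^ 2 * Real.sin (2 * Real.pi * y) ^ 2 * f s y
        ≤ 16 * Real.pi ^ 2 * f s y * f s y := by gcongr
      _ = 16 * Real.pi ^ 2 * f s y ^ 2 := by ring
  calc _ ≤ 8 * Real.pi ^ 2 / f s y + 16 * Real.pi ^ 2 / f s y :=
        (abs_sub _ _).trans (add_le_add h3 h4)
    _ = 24 * Real.pi ^ 2 / f s y := by ring

theorem t_LDIFF (hL : S_LIP) : S_LDIFF := by
  intro s θ d hs
  have hf := f_pos hs θ
  set C : ℝ := 24 * Real.pi ^ 2 * Real.exp (2 * Real.pi * |d| / s) / f s θ with hC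
  have key : ∀ y ∈ segment ℝ θ (θ + d),
      ‖8 * Real.pi ^ 2 * Real.cos (2 * Real.pi * y) / f s y -
      16 * Real.pi ^ 2 * Real.sin (2 * Real.pi * y) ^ 2 / f s y ^ 2‖ ≤ C := by
    intro y hy
    have hfy := f_pos hs y
    have hyd : |y - θ| ≤ |d| := by
      rw [segment_eq_uIcc] at hy
      have := Set.abs_sub_left_of_mem_uIcc hy
      rwa [add_sub_cancel_left] at this
    have h1 := hL s hs θ (y - θ)
    rw [add_sub_cancel] at h1
    have h2 : Real.log (f s θ) - Real.log (f s y) ≤ 2 * Real.pi * |d| / s := by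
      have h3 := (abs_le.1 h1).1
      have h4 : 2 * Real.pi / s * |y - θ| ≤ 2 * Real.pi / s * |d| := by gcongr
      have h5 : 2 * Real.pi / s * |d| = 2 * Real.pi * |d| / s := by ring
      linarith
    have h3 : f s θ ≤ Real.exp (2 * Real.pi * |d| / s) * f s y := by
      have h4 : Real.log (f s θ) ≤ 2 * Real.pi * |d| / s + Real.log (f s y) := by linarith
      calc f s θ = Real.exp (Real.log (f s θ)) := (Real.exp_log hf).symm
        _ ≤ Real.exp (2 * Real.pi * |d| / s + Real.log (f s y)) := Real.exp_le_exp.2 h4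
        _ = Real.exp (2 * Real.pi * |d| / s) * f s y := by rw [Real.exp_add, Real.exp_log hfy]
    refine (deriv_bound hs y).trans ?_
    rw [hC, div_le_div_iff₀ hfy hf]
    calc 24 * Real.pi ^ 2 * f s θ
        ≤ 24 * Real.pi ^ 2 * (Real.exp (2 * Real.pi * |d| / s) * f s y) := by gcongr
      _ = 24 * Real.pi ^ 2 * Real.exp (2 * Real.pi * |d| / s) * f s y := by ring
  have h1 := (convex_segment θ (θ + d)).norm_image_sub_le_of_norm_hasDerivWithin_le
    (f := fun y => L s y) (fun y _ => (hasDeriv_L hs y).hasDerivWithinAt) key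
    (left_mem_segment ℝ θ (θ + d)) (right_mem_segment ℝ θ (θ + d))
  rw [add_sub_cancel_left, Real.norm_eq_abs, Real.norm_eq_abs] at h1
  refine h1.trans (le_of_eq ?_)
  rw [hC]
  ring

theorem log_le {X : ℝ} (hX : 0 < X) (θ : ℝ) :
    Real.log (f (2 * X) θ) - Real.log (f X θ) ≤ X + 2 := by
  have hf := f_pos hX θ
  have hf2 := f_pos (show (0 : ℝ) < 2 * X by positivity) θ
  have h1 : f (2 * X) θ ≤ 2 * (Real.cosh X + 1) * f X θ := by
    unfold f
    have h2 := Real.cosh_two_mul X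
    have h3 := Real.cosh_sq X
    have h4 := Real.cos_le_one (2 * Real.pi * θ)
    have h5 := Real.one_le_cosh X
    rw [h2]
    nlinarith [mul_nonneg (sub_nonneg.2 h4) (sub_nonneg.2 h5)]
  have h2 : Real.cosh X ≤ Real.exp X := by
    rw [Real.cosh_eq]
    have : Real.exp (-X) ≤ Real.exp X := Real.exp_le_exp.2 (by linarith)
    linarith
  have h3 : (1 : ℝ) ≤ Real.exp X := Real.one_le_exp hX.le
  have h4 : f (2 * X) θ ≤ 4 * Real.exp X * f X θ := by
    refine h1.trans (mul_le_mul_of_nonneg_right ?_ hf.le)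
    linarith
  have h5 : Real.log (f (2 * X) θ) ≤ Real.log 4 + X + Real.log (f X θ) := by
    have := Real.log_le_log hf2 h4
    rwa [Real.log_mul (by positivity) hf.ne', Real.log_mul (by norm_num) (by positivity),
      Real.log_exp] at this
  have h6 : Real.log 4 ≤ 2 := by
    rw [show (4 : ℝ) = 2 ^ 2 by norm_num, Real.log_pow]
    have := Real.log_two_lt_d9
    push_cast
    linarith
  linarith

theorem inv_le {s : ℝ} (hs : 0 < s) (hs1 : s ≤ 1) (θ : ℝ) :
    (f s θ)⁻¹ ≤ 11 / (3 * s ^ 2) * (Real.log (f (2 * s) θ) - Real.log (f s θ)) := by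
  have hf := f_pos hs θ
  have hf2 := f_pos (show (0 : ℝ) < 2 * s by positivity) θ
  have h1 := f_diff_ge hs.le θ
  have h2 := f_diff_le hs.le hs1 θ
  have h3 := f_ge hs.le θ
  have h4 : f (2 * s) θ ≤ 11 * f s θ := by linarith
  have h5 : 1 - (f (2 * s) θ / f s θ)⁻¹ ≤ Real.log (f (2 * s) θ / f s θ) :=
    Real.one_sub_inv_le_log_of_pos (by positivity)
  rw [Real.log_div hf2.ne' hf.ne'] at h5
  have h6 : 3 * s ^ 2 / (11 * f s θ) ≤ 1 - (f (2 * s) θ / f s θ)⁻¹ := by
    have e : 1 - (f (2 * s) θ / f s θ)⁻¹ = (f (2 * s) θ - f s θ) / f (2 * s) θ := by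
      field_simp
    rw [e, div_le_div_iff₀ (by positivity) hf2]
    nlinarith [mul_le_mul h1 h4 hf2.le (by linarith : (0 : ℝ) ≤ f (2 * s) θ - f s θ)]
  calc (f s θ)⁻¹ = 11 / (3 * s ^ 2) * (3 * s ^ 2 / (11 * f s θ)) := by
        field_simp
    _ ≤ _ := by
        gcongr
        exact h6.trans h5

theorem t_INV (hP : S_PROD) : S_INV := by
  refine ⟨8, by norm_num, ?_⟩
  intro q p hq hpq s θ hs hs1
  have hq' : (0 : ℝ) < q := by exact_mod_cast hq
  have hX : 0 < q * s := by positivity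
  have h1 : ∀ s : ℝ, 0 < s → ∑ i ∈ range q, Real.log (f s (θ + i * (p / q))) =
      Real.log (f (q * s) (q * θ)) := by
    intro s hs
    rw [← hP q p hq hpq s θ, Real.log_prod]
    intro i _
    exact (f_pos hs _).ne'
  calc ∑ i ∈ range q, (f s (θ + i * (p / q)))⁻¹
      ≤ ∑ i ∈ range q, 11 / (3 * s ^ 2) * (Real.log (f (2 * s) (θ + i * (p / q))) -
        Real.log (f s (θ + i * (p / q)))) := Finset.sum_le_sum fun i _ => inv_le hs hs1 _
    _ = 11 / (3 * s ^ 2) * (Real.log (f (2 * (q * s)) (q * θ)) - Real.log (f (q * s) (q * θ))) := by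
        rw [← Finset.mul_sum, Finset.sum_sub_distrib, h1 s hs, h1 (2 * s) (by positivity),
          show (q : ℝ) * (2 * s) = 2 * (q * s) by ring]
    _ ≤ 11 / (3 * s ^ 2) * (q * s + 2) := by
        gcongr
        exact log_le hX _
    _ ≤ 8 * (q / s + 1 / s ^ 2) := by
        have e1 : 11 / (3 * s ^ 2) * (q * s + 2) = 11 / 3 * (q / s) + 22 / 3 * (1 / s ^ 2) := by
          field_simp
          ring
        rw [e1]
        have a1 : 0 ≤ q / s := by positivity
        have a2 : 0 ≤ 1 / s ^ 2 := by positivity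
        linarith

end Pool.Agent.Y852.RR
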